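import Pool.Agent.H255R3.CR.Main

/-!
# Directed reachability on digraphs with chordal condensation

For acyclic digraphs with chordal underlying graph, directed reachability is expressed by a formula of
first-order logic with symmetric transitive closure; by theorems of Immerman and of Reingold such
queries are computable in deterministic logarithmic space. More generally this holds for digraphs
in which, after deletion of `k` vertices, the condensation has a chordal underlying graph and no
strong component contains `t` disjoint, pairwise non-adjacent induced paths with four vertices.

Proof. Let `v` and `t` be non-adjacent vertices of an acyclic digraph with chordal underlying graph.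
The neighbours `K` of `v` that are adjacent to the component of `t` outside of the closed
neighbourhood of `v` form a clique, and every walk from `v` to `t` leaves the neighbourhood of `v`
for the last time through `K`. Hence `t` can be reached from `v` if and only if it can be reached
from the first element of the transitive tournament on those members of `K` that are
out-neighbours of `v`. Iterating this step gives a canonical walk that is followed
deterministically. For the condensation we use that contracting connected sets preserves
chordality, that a bounded number of rounds of merging along short closed walks
(`Pool.Agent.H534R2`) defines the strong components, and that the formula never gives a wrong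
positive answer, so that the deleted vertices can be quantified.
-/

set_option autoImplicit false

namespace Pool.Agent.Results.MP_e46137_lc.ChordalReachability

open Pool.Agent.H534R2 Pool.Agent.H255R3.CR Pool.Agent.H255R3.STC Relation

/-- (1) For all `t` and `k` one `FO(STC)` formula, which implies directed reachability on all
digraphs, defines it on every finite digraph that has a set `X` of at most `k` vertices such that,
without the arcs at `X`, the condensation has a chordal underlying graph and no strong component
contains `t` disjoint copies of `P_4` as an induced subgraph. (2) For every formula `σ` there is a
formula that defines directed reachability on all finite digraphs whose condensation has a chordal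
underlying graph and on which `σ` defines the strong components. (3) If the underlying graph of
a finite digraph is chordal, then so is the one of its condensation. -/
theorem result :
    (∀ t k : ℕ, ∃ φ : Fm 2,
      (∀ (V : Type) (E : V → V → Prop) (s d : V), φ.Holds E ![s, d] → ReflTransGen E s d) ∧
      ∀ (V : Type) [Finite V] (E : V → V → Prop) (X : Set V), X.ncard ≤ k →
        IsChordal (under (condE (del E X))) →
        (∀ e : tP4 t ↪g under (del E X), ∃ x y, ¬ ReflTransGen (del E X) (e x) (e y)) →
        ∀ s d : V, φ.Holds E ![s, d] ↔ ReflTransGen E s d) ∧
    (∀ σ : Fm 2, ∃ φ : Fm 2, ∀ (V : Type) [Finite V] (E : V → V → Prop),
      IsChordal (under (condE E)) →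
      (∀ a b : V, σ.Holds E ![a, b] ↔ (ReflTransGen E a b ∧ ReflTransGen E b a)) →
      ∀ s d : V, φ.Holds E ![s, d] ↔ ReflTransGen E s d) ∧
    (∀ (V : Type) [Finite V] (E : V → V → Prop), IsChordal (under E) →
      IsChordal (under (condE E))) := by
  refine ⟨fun t k => ?_, dfn_reach_fm, fun V _ E hG => cond_chordal hG⟩
  obtain ⟨φ, h1, h2⟩ := main t k
  exact ⟨φ, h1, fun V _ E X hX hc he s d => ⟨h1 V E s d, h2 V E X hX ⟨hc, he⟩ s d⟩⟩

end Pool.Agent.Results.MP_e46137_lc.ChordalReachability
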