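import Mathlib
import Pool.Agent.H841.Dicut

/-!
# Directed connectivity when few arcs enter the set of reachable vertices

For every `k` we construct monotone undirected switching networks with
`n ^ k * (n (k + 1) k ^ k + 1) + 1` nodes which accept a digraph if and only if there is no set which
contains `s` but not `t`, is not left by any arc and has at most `k` in-neighbours.  They decide
whether there is a directed path from `s` to `t` whenever the set of the vertices which can be
reached from `s` has at most `k` in-neighbours, in particular if the sum of the positive values of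
indegree minus outdegree is at most `k`.  The case `k = 0` is connectivity in Eulerian digraphs.
-/

set_option autoImplicit false

namespace Pool.Agent.Results.MP_e46137_lc.FewInNeighbours

open Relation H534R2.NotNet Pool.Agent.H841.Dicut

/-- a network given by relations on a finite type of nodes -/
theorem exists_net {V Q : Type} [Fintype Q] (l : Q → Q → Prop) (w : Q → Q → V → V → Prop)
    (a b : Q) : ∃ N : MNet V, N.size = Fintype.card Q ∧ ∀ G : V → V → Prop, N.Accepts G ↔
      EqvGen (fun x y => l x y ∨ ∃ u v, w x y u v ∧ G u v) a b := by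
  let φ := Fintype.equivFin Q
  refine ⟨⟨Fintype.card Q, φ a, φ b, fun x y => l (φ.symm x) (φ.symm y),
    fun x y => w (φ.symm x) (φ.symm y)⟩, rfl, fun G => ?_⟩
  constructor
  · intro h
    have key : ∀ x y : Fin (Fintype.card Q), EqvGen (MNet.Pass (V := V) ⟨Fintype.card Q, φ a, φ b,
        fun x y => l (φ.symm x) (φ.symm y), fun x y => w (φ.symm x) (φ.symm y)⟩ G) x y →
        EqvGen (fun x y => l x y ∨ ∃ u v, w x y u v ∧ G u v) (φ.symm x) (φ.symm y) := by
      intro x y h
      induction h with
      | rel x y h => exact EqvGen.rel _ _ h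
      | refl x => exact EqvGen.refl _
      | symm x y _ ih => exact EqvGen.symm _ _ ih
      | trans x y z _ _ ih1 ih2 => exact EqvGen.trans _ _ _ ih1 ih2
    have := key _ _ h
    simpa using this
  · intro h
    have key : ∀ x y : Q, EqvGen (fun x y => l x y ∨ ∃ u v, w x y u v ∧ G u v) x y →
        EqvGen (MNet.Pass (V := V) ⟨Fintype.card Q, φ a, φ b,
        fun x y => l (φ.symm x) (φ.symm y), fun x y => w (φ.symm x) (φ.symm y)⟩ G)
          (φ x) (φ y) := by
      intro x y h
      induction h with
      | rel x y h =>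
        refine EqvGen.rel _ _ ?_
        show l (φ.symm (φ x)) (φ.symm (φ y)) ∨ ∃ u v, w (φ.symm (φ x)) (φ.symm (φ y)) u v ∧ G u v
        rw [Equiv.symm_apply_apply, Equiv.symm_apply_apply]
        exact h
      | refl x => exact EqvGen.refl _
      | symm x y _ ih => exact EqvGen.symm _ _ ih
      | trans x y z _ _ ih1 ih2 => exact EqvGen.trans _ _ _ ih1 ih2
    exact key _ _ h

open Classical in
/-- a directed cut has at most as many arcs as the digraph is unbalanced -/
theorem dicut_le {V : Type} [Fintype V] (G : V → V → Prop) (U : Set V)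
    (hU : ∀ a b, G a b → a ∈ U → b ∈ U) :
    {p : V × V | G p.1 p.2 ∧ p.1 ∉ U ∧ p.2 ∈ U}.ncard ≤
      ∑ v, ({u | G u v}.ncard - {u | G v u}.ncard) := by
  have hin : ∀ v, {u | G u v}.ncard = ∑ u, if G u v then 1 else 0 := by
    intro v
    rw [Set.ncard_eq_toFinset_card', Finset.sum_boole]
    simp
  have hout : ∀ v, {u | G v u}.ncard = ∑ u, if G v u then 1 else 0 := by
    intro v
    rw [Set.ncard_eq_toFinset_card', Finset.sum_boole]
    simp
  have hD : {p : V × V | G p.1 p.2 ∧ p.1 ∉ U ∧ p.2 ∈ U}.ncard =
      ∑ u, ∑ v, if G u v ∧ u ∉ U ∧ v ∈ U then 1 else 0 := by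
    rw [Set.ncard_eq_toFinset_card', ← Fintype.sum_prod_type'
      (f := fun u v => if G u v ∧ u ∉ U ∧ v ∈ U then 1 else 0), Finset.sum_boole]
    simp
  have h1 : ∑ v, (if v ∈ U then {u | G u v}.ncard else 0) =
      {p : V × V | G p.1 p.2 ∧ p.1 ∉ U ∧ p.2 ∈ U}.ncard +
        ∑ v, (if v ∈ U then {u | G v u}.ncard else 0) := by
    rw [hD]
    have e1 : ∀ v, (if v ∈ U then {u | G u v}.ncard else 0) =
        ∑ u, if G u v ∧ v ∈ U then 1 else 0 := by
      intro v
      rw [hin]
      split_ifs with h <;> simp [h]
    have e2 : ∀ u, (if u ∈ U then {v | G u v}.ncard else 0) =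
        ∑ v, if G u v ∧ u ∈ U then 1 else 0 := by
      intro u
      rw [hout]
      split_ifs with h <;> simp [h]
    simp_rw [e1, e2]
    rw [Finset.sum_comm, ← Finset.sum_add_distrib]
    refine Finset.sum_congr rfl fun u _ => ?_
    rw [← Finset.sum_add_distrib]
    refine Finset.sum_congr rfl fun v _ => ?_
    by_cases hG : G u v
    · by_cases hu : u ∈ U
      · simp [hG, hu, hU u v hG hu]
      · simp [hG, hu]
    · simp [hG]
  have h2 : ∑ v, (if v ∈ U then {u | G u v}.ncard else 0) ≤
      ∑ v, (if v ∈ U then {u | G v u}.ncard else 0) +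
        ∑ v, ({u | G u v}.ncard - {u | G v u}.ncard) := by
    rw [← Finset.sum_add_distrib]
    refine Finset.sum_le_sum fun v _ => ?_
    split_ifs
    · omega
    · omega
  omega

/-- For all `k` there is a monotone undirected switching network with at most
`n ^ k * (n * ((k + 1) * k ^ k) + 1) + 1` nodes such that
* it accepts exactly the digraphs in which every set which contains `s` but not `t` and is not left
  by any arc has more than `k` in-neighbours;
* it accepts exactly the digraphs with a directed path from `s` to `t`, among all digraphs for which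
  the set of the vertices which can be reached from `s` has at most `k` in-neighbours;
* it accepts exactly the digraphs with a directed path from `s` to `t`, among all digraphs for which
  the sum of the differences of the indegree and the outdegree, over the vertices for which this
  difference is positive, is at most `k`. -/
theorem result (k : ℕ) (V : Type) [Fintype V] (s t : V) : ∃ N : MNet V,
    N.size ≤ Fintype.card V ^ k * (Fintype.card V * ((k + 1) * k ^ k) + 1) + 1 ∧
    (∀ G : V → V → Prop, N.Accepts G ↔ ∀ U : Set V, s ∈ U → t ∉ U →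
      (∀ a b, G a b → a ∈ U → b ∈ U) → k < {a : V | a ∉ U ∧ ∃ b ∈ U, G a b}.ncard) ∧
    (∀ G : V → V → Prop,
      {a : V | ¬ ReflTransGen G s a ∧ ∃ b, ReflTransGen G s b ∧ G a b}.ncard ≤ k →
        (N.Accepts G ↔ ReflTransGen G s t)) ∧
    (∀ G : V → V → Prop, ∑ v, ({u | G u v}.ncard - {u | G v u}.ncard) ≤ k →
      (N.Accepts G ↔ ReflTransGen G s t)) := by
  classical
  obtain ⟨N, hN, hacc⟩ := exists_net (V := V)
    (lnk (k := k) (M := Fintype.card (Fin k → V)) s t)
    (wir (Fintype.equivFin (Fin k → V)).symm)
    (Sum.inl 0) (Sum.inl (Fin.last _))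
  have main : ∀ G : V → V → Prop, N.Accepts G ↔ ∀ U : Set V, s ∈ U → t ∉ U →
      (∀ a b, G a b → a ∈ U → b ∈ U) →
        k < {a : V | a ∉ U ∧ ∃ b ∈ U, G a b}.ncard := by
    intro G
    rw [hacc]
    constructor
    · intro h U hs ht hU
      by_contra hk
      rw [not_lt] at hk
      set D : Set V := {a : V | a ∉ U ∧ ∃ b ∈ U, G a b} with hD
      obtain ⟨e, he⟩ : ∃ e : Fin k → V, ∀ p ∈ D, ∃ i, e i = p := by
        rw [Set.ncard_eq_toFinset_card'] at hk
        obtain ⟨g, hg⟩ : ∃ g : Fin k → V, ∀ p ∈ D.toFinset, ∃ i, g i = p := by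
          refine ⟨fun i => if h : (i : ℕ) < D.toFinset.card then
            (D.toFinset.equivFin.symm ⟨i, h⟩ : V) else s, fun p hp => ?_⟩
          refine ⟨⟨D.toFinset.equivFin ⟨p, hp⟩, lt_of_lt_of_le (Fin.is_lt _) hk⟩, ?_⟩
          exact (dif_pos (D.toFinset.equivFin ⟨p, hp⟩).is_lt).trans (by simp)
        exact ⟨g, fun p hp => hg p (Set.mem_toFinset.2 hp)⟩
      refine sound (Fintype.equivFin (Fin k → V)).symm s t G U hs
        (fun a b ha hab => hU a b hab ha) ht (Fintype.equivFin (Fin k → V) e) ?_ h
      intro a b hab ha hb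
      rw [Equiv.symm_apply_apply]
      exact he a ⟨ha, b, hb, hab⟩
    · intro h
      refine complete (Fintype.equivFin (Fin k → V)).symm s t G fun m => ?_
      by_contra ht
      have h1 := h (W G ((Fintype.equivFin (Fin k → V)).symm m) s) W_start ht
        (fun a b hab ha => W_closed a b ha hab)
      refine absurd h1 (not_lt.2 ?_)
      calc _ ≤ (Set.range ((Fintype.equivFin (Fin k → V)).symm m)).ncard := by
            refine Set.ncard_le_ncard ?_ (Set.toFinite _)
            rintro a ⟨h2, b, h3, h4⟩
            exact W_enter h4 h2 h3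
        _ ≤ k := by
            rw [← Set.image_univ]
            refine (Set.ncard_image_le (Set.toFinite _)).trans ?_
            rw [Set.ncard_univ, Nat.card_eq_fintype_card, Fintype.card_fin]
  have small : ∀ G : V → V → Prop,
      {a : V | ¬ ReflTransGen G s a ∧ ∃ b, ReflTransGen G s b ∧ G a b}.ncard ≤ k →
      (N.Accepts G ↔ ReflTransGen G s t) := by
    intro G hG
    rw [main]
    constructor
    · intro h
      by_contra ht
      have h1 : ∀ a b, G a b → a ∈ {v | ReflTransGen G s v} → b ∈ {v | ReflTransGen G s v} :=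
        fun a b hab ha => ReflTransGen.tail ha hab
      exact absurd (h {v | ReflTransGen G s v} ReflTransGen.refl ht h1) (not_lt.2 hG)
    · intro h U hs ht hU
      have h1 : ∀ v, ReflTransGen G s v → v ∈ U := by
        intro v hv
        induction hv with
        | refl => exact hs
        | tail _ hab ih => exact hU _ _ hab ih
      exact absurd (h1 t h) ht
  refine ⟨N, ?_, main, small, ?_⟩
  · rw [hN]
    simp only [Fintype.card_sum, Fintype.card_fin, Fintype.card_prod, Fintype.card_fun]
    apply le_of_eq
    ring
  · intro G hG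
    refine small G (le_trans ?_ ((dicut_le G {v | ReflTransGen G s v}
      fun a b hab ha => ReflTransGen.tail ha hab).trans hG))
    have h1 : {a : V | ¬ ReflTransGen G s a ∧ ∃ b, ReflTransGen G s b ∧ G a b} =
        Prod.fst '' {p : V × V | G p.1 p.2 ∧ p.1 ∉ {v | ReflTransGen G s v} ∧
          p.2 ∈ {v | ReflTransGen G s v}} := by
      ext a
      constructor
      · rintro ⟨h1, b, h2, h3⟩
        exact ⟨(a, b), ⟨h3, h1, h2⟩, rfl⟩
      · rintro ⟨⟨a', b⟩, ⟨h1, h2, h3⟩, rfl⟩
        exact ⟨h2, b, h3, h1⟩
    rw [h1]
    exact Set.ncard_image_le (Set.toFinite _)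

end Pool.Agent.Results.MP_e46137_lc.FewInNeighbours
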