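import Pool.Agent.H534R2.HFree

/-!
# Directed reachability on digraphs whose underlying graph has no induced `t P_4`

For every `t` there is one formula of first-order logic with symmetric transitive closure that
expresses directed reachability in all digraphs whose underlying undirected graph does not contain
`t` disjoint, pairwise non-adjacent paths on four vertices as an induced subgraph. By theorems of
Immerman and of Reingold such queries are computable in deterministic logarithmic space, so the
reachability problem, which is complete for `NLOGSPACE` on general digraphs, is in `DLOGSPACE` on
these classes.

Repeatedly merge the ends of every arc that can be returned by a walk of at most `6 t + 1` arcs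
through the classes merged so far; after `t` rounds every shortest path is covered by at most `6 t`
arcs and moves inside the classes.
-/

namespace Pool.Agent.Results.MP_e46137_lc.ReachabilityP4

open Pool.Agent.H534R2 Relation

/-- For every `t` one `FO(STC)` formula defines directed reachability on all digraphs whose
underlying graph has no induced subgraph isomorphic to `t` disjoint copies of the path on four
vertices. -/
theorem result (t : ℕ) : ∃ φ : Fm 2, ∀ (V : Type) (E : V → V → Prop),
    IsEmpty (tP4 t ↪g under E) → ∀ s d : V, φ.Holds E ![s, d] ↔ ReflTransGen E s d := by
  rcases Nat.eq_zero_or_pos t with h0 | h0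
  · subst h0
    refine ⟨Fm.eq 0 0, fun V E h => ?_⟩
    exact (h.false ⟨⟨fun x => x.1.elim0, fun x => x.1.elim0⟩, fun {x} => x.1.elim0⟩).elim
  · obtain ⟨φ, hφ⟩ := dfn_reach_tP4 t h0
    refine ⟨φ, fun V E h s d => hφ V E (fun hP => ?_) s d⟩
    obtain ⟨e⟩ := hP.embed
    exact h.false e

end Pool.Agent.Results.MP_e46137_lc.ReachabilityP4
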