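import Pool.Agent.H181R5.NLT.Thm
import Pool.Agent.H134R3.NLT_Path
import Pool.Agent.H811R3.NLT.Greedy
import Pool.Agent.H254R3.NLT_Cat
import Pool.Agent.H252R5.NLT.Num1
import Pool.Agent.H322R3.NLT_Num2
import Pool.Agent.H568R3.NLT.Red
import Pool.Agent.H154R5.NLT_TT
import Pool.Agent.H795R3.NLT_Turan

/-!
Directed reachability on subgraphs of a host digraph with nearly half of all arcs.
-/

set_option autoImplicit false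

namespace Pool.Agent.Results.MP_e46137_lc.ThresholdHosts

open Finset Pool.Agent.H181R5.NLH

theorem result :
    (∀ r n N : ℕ, (64 * (200 * (r * (r + 1))) ^ 4) ^ 5 ≤ n → ∀ H : Finset (Fin n × Fin n),
      (n : ℝ) ^ 2 / 2 - (n : ℝ) ^ (9 / 5 : ℝ) ≤ (H.card : ℝ) → Easy (Fin n) H N →
      Easy (Fin r) univ N) ∧
    (∀ H : (n : ℕ) → Finset (Fin n × Fin n),
      (∀ n : ℕ, (n : ℝ) ^ 2 / 2 - (n : ℝ) ^ (9 / 5 : ℝ) ≤ ((H n).card : ℝ)) →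
      ((∃ c : ℕ, ∀ n : ℕ, Easy (Fin n) (H n) (n ^ c + c)) ↔
        ∃ c : ℕ, ∀ r : ℕ, Easy (Fin r) univ (r ^ c + c))) ∧
    (∀ (n : ℕ) (T : Finset (Fin n × Fin n)),
      (∀ a b : Fin n, a ≠ b → ((a, b) ∈ T ↔ (b, a) ∉ T)) →
      (n : ℝ) ^ 2 / 2 - (n : ℝ) ^ (9 / 5 : ℝ) ≤ (T.card : ℝ)) ∧
    (∀ ε : ℝ, 0 < ε → ∃ c : ℕ, ∀ n : ℕ, ∃ H : Finset (Fin n × Fin n),
      (1 / 2 - ε) * (n : ℝ) ^ 2 ≤ (H.card : ℝ) ∧ Easy (Fin n) H (n ^ c + c)) :=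
  Pool.Agent.H181R5.NLT.final_of
    (Pool.Agent.H181R5.NLT.main_of Pool.Agent.H134R3.NLT.taskPath Pool.Agent.H811R3.NLT.taskGreedy
      Pool.Agent.H254R3.NLTCat.taskCat Pool.Agent.H252R5.NLT.num1 Pool.Agent.H322R3.NLT.taskNum2)
    Pool.Agent.H568R3.NLT.taskRed Pool.Agent.H154R5.NLTT.taskTT Pool.Agent.H795R3.NLT.taskTuran

end Pool.Agent.Results.MP_e46137_lc.ThresholdHosts
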